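import Pool.Agent.helper67.TSC.Spec

/-!
# Project tsc, row RTY3: the pairs with a right value of parity `e`
-/

set_option autoImplicit false

open Finset

noncomputable section

namespace Pool.Agent.TSC

open Finset Pool.Agent.EP

theorem RTY3_mem {α : Type} (s : Finset α) (p : α → Prop) (inst : DecidablePred p) (a : α)
    (h1 : a ∈ s) (h2 : p a) : a ∈ @Finset.filter α p inst s := Finset.mem_filter.2 ⟨h1, h2⟩

theorem RTY3 (hMUL : OG.MUL_stmt) : RTY3_stmt := by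
  intro e a y K X D ha hD
  classical
  let Z : ℕ := 2 * K * 2 ^ a * X
  let E : Finset ℕ := (range (Z + 1)).filter fun n => Fintype.card (Nat.Partition n) % 2 = e
  let G : ℕ → ℕ × ℕ → Finset (ℕ × ℕ) := fun s p =>
    ((Ioc 0 (2 * K)).filter fun r => ∃ w ∈ ws (r * 2 ^ a),
      r * 2 ^ a - 3 * w ^ 2 = (24 * s - 1) / (r0 a * p.1 * p.2)).image
        fun r => (r, (r0 a * p.1 * p.2 + 2 ^ a - 3) / 24)
  let B : Finset (ℕ × ℕ) := E.biUnion fun s =>
    ((24 * s - 1).primeFactors ×ˢ (24 * s - 1).primeFactors).biUnion fun p => G s p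
  have h8 : 8 ≤ 2 ^ a := by
    calc 8 = 2 ^ 3 := by norm_num
      _ ≤ 2 ^ a := Nat.pow_le_pow_right (by norm_num) ha
  have hr0 : 0 < r0 a := by
    unfold r0; split_ifs <;> norm_num
  have hsub : {x : ℕ × ℕ | x.1 ∈ PM K ∧ x.2 ≤ X ∧ SpK a y x.1 x.2 ∧ VR e a x.1 x.2} ⊆
      (B : Set (ℕ × ℕ)) := by
    rintro ⟨k, n⟩ ⟨hk, hn, ⟨p₁, p₂, hp₁, hp₂, -, -, -, -, hM⟩, w, hw, h24, hev⟩
    simp only at hk hn hM hw h24 hev
    obtain ⟨M, hMe⟩ : ∃ M, r0 a * p₁ * p₂ = M := ⟨_, rfl⟩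
    rw [hMe] at hM
    have hM0 : 0 < M := by
      rw [← hMe]
      exact Nat.mul_pos (Nat.mul_pos hr0 hp₁.pos) hp₂.pos
    have hMs : 24 * n + 3 - 2 ^ a = M := by omega
    rw [hMs] at h24 hev
    have hw3 : 3 * w ^ 2 < k * 2 ^ a := (Finset.mem_filter.1 hw).2.2
    obtain ⟨j, hj⟩ : ∃ j, k * 2 ^ a - 3 * w ^ 2 = j := ⟨_, rfl⟩
    rw [hj] at h24 hev
    have hj0 : 0 < j := by omega
    obtain ⟨s, hs⟩ := h24
    rw [hs, Nat.mul_div_cancel_left _ (by norm_num)] at hev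
    have hts : 24 * s - 1 = j * M := by omega
    have hkI := (Finset.mem_filter.1 hk).1
    have hk2 : k ≤ 2 * K := (Finset.mem_Ioc.1 hkI).2
    have hk0 : 0 < k := by
      have := (Finset.mem_Ioc.1 hkI).1
      omega
    have hsZ : s ≤ Z := by
      have h3 : k * 2 ^ a ≤ 2 * K * 2 ^ a := Nat.mul_le_mul_right _ hk2
      have h5 : M ≤ 24 * X := by omega
      have h6 : j * M ≤ 2 * K * 2 ^ a * (24 * X) := Nat.mul_le_mul (by omega) h5
      have h7 : 2 * K * 2 ^ a * (24 * X) = 24 * Z := by simp only [Z]; ring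
      omega
    have hne : j * M ≠ 0 := (Nat.mul_pos hj0 hM0).ne'
    simp only [B, Finset.coe_biUnion, Set.mem_iUnion, Finset.mem_coe]
    refine ⟨s, ?_, (p₁, p₂), ?_, ?_⟩
    · exact Finset.mem_filter.2 ⟨Finset.mem_range.2 (by omega), hev⟩
    · rw [hts, Finset.mem_product]
      refine ⟨Nat.mem_primeFactors.2 ⟨hp₁, ?_, hne⟩, Nat.mem_primeFactors.2 ⟨hp₂, ?_, hne⟩⟩
      · rw [← hMe]
        exact Dvd.dvd.mul_left (Dvd.dvd.mul_right (Dvd.intro_left _ rfl) _) _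
      · rw [← hMe]
        exact Dvd.dvd.mul_left (Dvd.intro_left _ rfl) _
    · rw [Finset.mem_image]
      refine ⟨k, ?_, ?_⟩
      · refine RTY3_mem _ _ _ _ (Finset.mem_Ioc.2 ⟨hk0, hk2⟩) ⟨w, hw, ?_⟩
        rw [hts, hMe, Nat.mul_div_cancel _ hM0, hj]
      · rw [hMe]
        refine Prod.ext rfl ?_
        simp only
        omega
  have hcardG : ∀ s p, #(G s p) ≤ 2 * (Nat.sqrt (2 * K * 2 ^ a) / 2 ^ (a - 1) + 1) := by
    intro s p
    exact Finset.card_image_le.trans (hMUL a (2 * K) _ (by omega))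
  have hcard : #B ≤ #E * (D * D * (2 * (Nat.sqrt (2 * K * 2 ^ a) / 2 ^ (a - 1) + 1))) := by
    refine Finset.card_biUnion_le_card_mul _ _ _ fun s hs => ?_
    refine (Finset.card_biUnion_le_card_mul _ _ _ fun p _ => hcardG s p).trans
      (Nat.mul_le_mul_right _ ?_)
    rw [Finset.card_product]
    have hp : #(24 * s - 1).primeFactors ≤ D := by
      rcases Nat.eq_zero_or_pos (24 * s - 1) with h0 | h0
      · rw [h0]; simp
      · refine hD _ h0 ?_
        have hsZ : s ≤ Z := by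
          have := Finset.mem_range.1 (Finset.mem_filter.1 hs).1
          omega
        have h7 : 48 * (K * 2 ^ a * X) = 24 * Z := by simp only [Z]; ring
        omega
    exact Nat.mul_le_mul hp hp
  calc Set.ncard {x : ℕ × ℕ | x.1 ∈ PM K ∧ x.2 ≤ X ∧ SpK a y x.1 x.2 ∧ VR e a x.1 x.2}
      ≤ Set.ncard (B : Set (ℕ × ℕ)) := Set.ncard_le_ncard hsub (Finset.finite_toSet B)
    _ = #B := Set.ncard_coe_finset B
    _ ≤ #E * (D * D * (2 * (Nat.sqrt (2 * K * 2 ^ a) / 2 ^ (a - 1) + 1))) := hcard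
    _ = 2 * D ^ 2 * (Nat.sqrt (2 * K * 2 ^ a) / 2 ^ (a - 1) + 1) * sN e (2 * K * 2 ^ a * X) := by
      have : sN e (2 * K * 2 ^ a * X) = #E := rfl
      rw [this]; ring

end Pool.Agent.TSC
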